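import Pool.Agent.H609.XP.Count
import Pool.Agent.H609.XP.Block

/-!
# The digits of `(∑ f k b ^ (-n k)) / p ^ r` for integral `f`, constant modulo `p`
-/

set_option autoImplicit false

namespace Pool.Agent.H609.XP

open Finset

lemma tail (f : ℕ → ℝ) {K x : ℝ} (hK : 0 ≤ K) (hx : 0 ≤ x) (hKx : K * x ≤ 1 / 2)
    (hf : ∀ k, |f k| ≤ K ^ (k + 1)) (m : ℕ) : Summable (fun k => f k * x ^ k) ∧
      |∑' k, f k * x ^ k - ∑ k ∈ range m, f k * x ^ k| ≤ 2 * K ^ (m + 1) * x ^ m := by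
  have hb : ∀ m k, ‖f (k + m) * x ^ (k + m)‖ ≤ K ^ (m + 1) * x ^ m * (1 / 2) ^ k := by
    intro m k
    rw [norm_mul, norm_pow, Real.norm_eq_abs, Real.norm_eq_abs, abs_of_nonneg hx]
    calc |f (k + m)| * x ^ (k + m) ≤ K ^ (k + m + 1) * x ^ (k + m) :=
          mul_le_mul_of_nonneg_right (hf _) (by positivity)
      _ = K ^ (m + 1) * x ^ m * (K * x) ^ k := by ring
      _ ≤ _ := by
        apply mul_le_mul_of_nonneg_left _ (by positivity)
        exact pow_le_pow_left₀ (by positivity) hKx k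
  have hgeo : ∀ m, HasSum (fun k : ℕ => K ^ (m + 1) * x ^ m * (1 / 2 : ℝ) ^ k)
      (K ^ (m + 1) * x ^ m * 2) := by
    intro m
    exact hasSum_geometric_two.mul_left _
  have hsum : Summable (fun k => f k * x ^ k) := by
    have h1 := Summable.of_norm_bounded (hgeo 0).summable (fun k => hb 0 k)
    simpa using h1
  refine ⟨hsum, ?_⟩
  rw [← hsum.sum_add_tsum_nat_add m, add_sub_cancel_left]
  have h2 := tsum_of_norm_bounded (hgeo m) (fun k => hb m k)
  rw [Real.norm_eq_abs] at h2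
  linarith

/-- the integral part of `b ^ (n κ) f(b ^ (-n))` -/
def U (f : ℕ → ℤ) (b n κ : ℕ) : ℤ := ∑ l ∈ range (κ + 1), f l * ((b : ℤ) ^ n) ^ (κ - l)

lemma U_not_dvd {p : ℕ} (hp : p.Prime) {b : ℕ} (hpb : ¬ p ∣ b) (f : ℕ → ℤ) (h0 : ¬ (p : ℤ) ∣ f 0)
    (hk : ∀ k, 1 ≤ k → (p : ℤ) ∣ f k) (n κ : ℕ) : ¬ (p : ℤ) ∣ U f b n κ := by
  have hpZ : Prime (p : ℤ) := Nat.prime_iff_prime_int.1 hp
  unfold U
  rw [sum_range_succ']
  intro h
  have h1 : (p : ℤ) ∣ ∑ l ∈ range κ, f (l + 1) * ((b : ℤ) ^ n) ^ (κ - (l + 1)) :=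
    dvd_sum fun l _ => Dvd.dvd.mul_right (hk _ (by omega)) _
  have h2 : (p : ℤ) ∣ f 0 * ((b : ℤ) ^ n) ^ (κ - 0) := (dvd_add_right h1).1 h
  rcases hpZ.dvd_or_dvd h2 with h3 | h3
  · exact h0 h3
  · exact hpb (by exact_mod_cast hpZ.dvd_of_dvd_pow (hpZ.dvd_of_dvd_pow h3))

lemma U_approx {b : ℕ} (hb : 2 ≤ b) (f : ℕ → ℤ) {K : ℝ} (hK : 0 ≤ K)
    (hf : ∀ k, |(f k : ℝ)| ≤ K ^ (k + 1)) {n : ℕ} (hn : 2 * K ≤ (b : ℝ) ^ n) (κ : ℕ) :
    |(b : ℝ) ^ (n * κ) * (∑' k, (f k : ℝ) * (((b : ℝ) ^ n)⁻¹) ^ k) - U f b n κ| ≤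
      2 * K ^ (κ + 2) * ((b : ℝ) ^ n)⁻¹ := by
  have hb0 : (0 : ℝ) < b := by exact_mod_cast (by omega : 0 < b)
  have hB : (0 : ℝ) < (b : ℝ) ^ n := by positivity
  set x : ℝ := ((b : ℝ) ^ n)⁻¹ with hx
  have hx0 : 0 < x := by positivity
  have hBx : (b : ℝ) ^ n * x = 1 := mul_inv_cancel₀ hB.ne'
  have hKx : K * x ≤ 1 / 2 := by
    rw [hx, ← div_eq_mul_inv, div_le_iff₀ hB]
    linarith
  obtain ⟨-, h1⟩ := tail (fun k => (f k : ℝ)) hK hx0.le hKx hf (κ + 1)
  have h2 : ((U f b n κ : ℤ) : ℝ) = (b : ℝ) ^ (n * κ) * ∑ k ∈ range (κ + 1), (f k : ℝ) * x ^ k := by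
    unfold U
    push_cast
    rw [mul_sum]
    refine sum_congr rfl fun l hl => ?_
    rw [mem_range] at hl
    obtain ⟨m, rfl⟩ : ∃ m, κ = l + m := ⟨κ - l, by omega⟩
    rw [Nat.add_sub_cancel_left, pow_mul, pow_add]
    calc (f l : ℝ) * ((b : ℝ) ^ n) ^ m = f l * ((b : ℝ) ^ n) ^ m * ((b : ℝ) ^ n * x) ^ l := by
          rw [hBx, one_pow, mul_one]
      _ = _ := by rw [mul_pow]; ring
  rw [h2, ← mul_sub, abs_mul, abs_of_pos (by positivity)]
  calc (b : ℝ) ^ (n * κ) * |∑' k, (f k : ℝ) * x ^ k - ∑ k ∈ range (κ + 1), (f k : ℝ) * x ^ k| ≤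
      (b : ℝ) ^ (n * κ) * (2 * K ^ (κ + 1 + 1) * x ^ (κ + 1)) :=
        mul_le_mul_of_nonneg_left h1 (by positivity)
    _ = 2 * K ^ (κ + 2) * x * ((b : ℝ) ^ n * x) ^ κ := by
        rw [pow_mul, mul_pow]
        ring
    _ = _ := by rw [hBx, one_pow, mul_one]

/-- **The digits.** -/
theorem digits {b : ℕ} (hb : 2 ≤ b) {p : ℕ} (hp : p.Prime) (hp2 : Odd p) (hpb : ¬ p ∣ b)
    (f : ℕ → ℤ) {K : ℕ} (hK : 1 ≤ K) (hf : ∀ k, |(f k : ℝ)| ≤ (K : ℝ) ^ (k + 1))
    (h0 : ¬ (p : ℤ) ∣ f 0) (hk : ∀ k, 1 ≤ k → (p : ℤ) ∣ f k) :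
    ∃ C : ℝ, 0 < C ∧ ∀ n : ℕ, K + 1 ≤ n → ∀ r : ℕ, ∀ y : ℝ, 0 ≤ y → y ≤ 1 → ∀ s L : ℕ,
      |Er (fun j => (b : ℝ) ^ j * ((∑' k, (f k : ℝ) * (((b : ℝ) ^ n)⁻¹) ^ k) / (p : ℝ) ^ r)) y s L|
        ≤ C * (L / (p : ℝ) ^ r + ((p : ℝ) ^ r + (s + L) / n) * (L / n + 1)) := by
  have hpZ : Prime (p : ℤ) := Nat.prime_iff_prime_int.1 hp
  have hp1 : 2 ≤ p := hp.two_le
  have hpR1 : (1 : ℝ) ≤ p := by exact_mod_cast hp.one_le
  have hb0 : (0 : ℝ) < b := by exact_mod_cast (by omega : 0 < b)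
  have hbR : (2 : ℝ) ≤ b := by exact_mod_cast hb
  have hKR : (1 : ℝ) ≤ K := by exact_mod_cast hK
  -- the order
  set t := p - 1 with ht
  have ht1 : 1 ≤ t := by omega
  set u : ℤ := (b : ℤ) ^ t with hu
  have hu1 : (p : ℤ) ∣ u - 1 := by
    have := Fact.mk hp
    rw [← ZMod.intCast_zmod_eq_zero_iff_dvd]
    rw [hu]
    push_cast
    have h1 : (b : ZMod p) ≠ 0 := by
      rw [Ne, ZMod.natCast_eq_zero_iff]
      exact hpb
    rw [ZMod.pow_card_sub_one_eq_one h1, sub_self]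
  have hu0 : u - 1 ≠ 0 := by
    have h1 : (1 : ℤ) < u := by
      rw [hu]
      exact one_lt_pow₀ (by exact_mod_cast (by omega : 1 < b)) (by omega)
    omega
  have hfin : FiniteMultiplicity (p : ℤ) (u - 1) := by
    rw [Int.finiteMultiplicity_iff]
    refine ⟨?_, hu0⟩
    simp only [Int.natAbs_natCast]
    omega
  obtain ⟨w, hw1, hw2⟩ := hfin.exists_eq_pow_mul_and_not_dvd
  set a := multiplicity (p : ℤ) (u - 1) with ha
  have huw : u = 1 + (p : ℤ) ^ a * w := by linarith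
  have ha1 : 1 ≤ a := by
    by_contra hcon
    have h1 : a = 0 := by omega
    rw [h1, pow_zero, one_mul] at hw1
    rw [hw1] at hu1
    exact hw2 hu1
  set C : ℝ := (p : ℝ) ^ a * 3 + 2 * (t + 2 * K + 2 + K) with hC
  refine ⟨C, by positivity, fun n hn r y hy0 hy1 s L => ?_⟩
  have hnpos : 0 < n := by omega
  have hnR : (0 : ℝ) < n := by exact_mod_cast hnpos
  have hprpos : (0 : ℝ) < (p : ℝ) ^ r := by positivity
  have hpr1 : (1 : ℝ) ≤ (p : ℝ) ^ r := one_le_pow₀ hpR1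
  have hpa1 : (1 : ℝ) ≤ (p : ℝ) ^ a := one_le_pow₀ hpR1
  set S : ℝ := ∑' k, (f k : ℝ) * (((b : ℝ) ^ n)⁻¹) ^ k with hS
  set x : ℕ → ℝ := fun j => (b : ℝ) ^ j * (S / (p : ℝ) ^ r) with hx
  have hL0 : (0 : ℝ) ≤ L := Nat.cast_nonneg _
  have hs0 : (0 : ℝ) ≤ s := Nat.cast_nonneg _
  have hX : 0 ≤ ((p : ℝ) ^ r + (s + L) / n) * (L / n + 1) := by positivity
  rcases lt_or_ge r a with hra | hra
  · -- small `r`
    have h1 := Er_le x hy0 hy1 s L
    have h2 : (p : ℝ) ^ r ≤ (p : ℝ) ^ a := pow_le_pow_right₀ hpR1 hra.le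
    have h3 : (L : ℝ) ≤ (p : ℝ) ^ a * (L / (p : ℝ) ^ r) := by
      rw [mul_div_assoc', le_div_iff₀ hprpos]
      nlinarith
    have h4 : (p : ℝ) ^ a * (L / (p : ℝ) ^ r) ≤ C * (L / (p : ℝ) ^ r) := by
      apply mul_le_mul_of_nonneg_right _ (by positivity)
      rw [hC]
      have : (0 : ℝ) ≤ 2 * (t + 2 * K + 2 + K) := by positivity
      linarith
    have h5 : 0 ≤ C * (((p : ℝ) ^ r + (s + L) / n) * (L / n + 1)) := by positivity
    calc |Er x y s L| ≤ C * (L / (p : ℝ) ^ r) + C * (((p : ℝ) ^ r + (s + L) / n) * (L / n + 1)) := by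
          linarith
      _ = _ := by ring
  · set P := p ^ (r - a) with hP
    have hPpos : 0 < P := Nat.pow_pos hp.pos
    set T := t * P with hT
    have hTpos : 0 < T := Nat.mul_pos ht1 hPpos
    set N := s + L with hN
    set G := K * (N / n + 2) + 2 with hG
    have h2K : 2 * (K : ℝ) ≤ (b : ℝ) ^ n := by
      calc 2 * (K : ℝ) ≤ 2 * 2 ^ K := by
            have : (K : ℝ) < 2 ^ K := by exact_mod_cast Nat.lt_two_pow_self
            linarith
        _ = 2 ^ (K + 1) := by ring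
        _ ≤ (b : ℝ) ^ (K + 1) := pow_le_pow_left₀ (by norm_num) hbR _
        _ ≤ _ := pow_le_pow_right₀ (by linarith) hn
    have hmain := Er_all x hy0 hy1 hTpos (3 * t) (by positivity) n G N hnpos (by
      intro κ s' hs1 hs2 hs3
      have hκ : κ ≤ N / n := by
        rw [Nat.le_div_iff_mul_le hnpos, mul_comm]
        omega
      have hlocal := Er_run x y s' t P (by
        intro i hi
        set V : ℤ := (b : ℤ) ^ (s' + i - n * κ) * U f b n κ with hV
        have hVp : ¬ (p : ℤ) ∣ V := by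
          intro h
          rcases hpZ.dvd_or_dvd h with h1 | h1
          · exact hpb (by exact_mod_cast hpZ.dvd_of_dvd_pow h1)
          · exact U_not_dvd hp hpb f h0 hk n κ h1
        have hrun := run hp hp2 ha1 huw hw2 hra hVp (fun m => x (s' + (i + t * m))) (by
          intro m hm
          have hj : i + t * m < T := by
            rw [hT]
            calc i + t * m < t + t * m := by omega
              _ = t * (m + 1) := by ring
              _ ≤ t * P := Nat.mul_le_mul_left _ hm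
          obtain ⟨e, he⟩ : ∃ e, s' + (i + t * m) = n * κ + e := ⟨s' + (i + t * m) - n * κ, by omega⟩
          have heG : e + G ≤ n := by omega
          have h1 : V * u ^ m = (b : ℤ) ^ e * U f b n κ := by
            rw [hV, hu]
            have h2 : s' + i - n * κ + t * m = e := by omega
            rw [← h2, pow_add, pow_mul]
            ring
          have h3 : x (s' + (i + t * m)) - ((V * u ^ m : ℤ) : ℝ) / (p : ℝ) ^ r =
              (b : ℝ) ^ e * ((b : ℝ) ^ (n * κ) * S - U f b n κ) / (p : ℝ) ^ r := by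
            rw [h1, hx]
            simp only
            rw [he, pow_add]
            push_cast
            ring
          rw [h3, abs_div, abs_mul, abs_of_pos hprpos, abs_of_pos (by positivity)]
          have h4 := U_approx hb f (by positivity : (0 : ℝ) ≤ K) hf h2K κ
          rw [← hS] at h4
          have h5 : (b : ℝ) ^ e * |(b : ℝ) ^ (n * κ) * S - U f b n κ| ≤ 1 / 2 := by
            calc (b : ℝ) ^ e * |(b : ℝ) ^ (n * κ) * S - U f b n κ| ≤
                (b : ℝ) ^ e * (2 * (K : ℝ) ^ (κ + 2) * ((b : ℝ) ^ n)⁻¹) :=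
                  mul_le_mul_of_nonneg_left h4 (by positivity)
              _ = 2 * (K : ℝ) ^ (κ + 2) * ((b : ℝ) ^ e * ((b : ℝ) ^ n)⁻¹) := by ring
              _ ≤ 2 * (K : ℝ) ^ (κ + 2) * ((b : ℝ) ^ G)⁻¹ := by
                  apply mul_le_mul_of_nonneg_left _ (by positivity)
                  rw [← div_eq_mul_inv, div_le_iff₀ (by positivity), ← div_eq_inv_mul,
                    le_div_iff₀ (by positivity), ← pow_add]
                  exact pow_le_pow_right₀ (by linarith) heG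
              _ ≤ 1 / 2 := by
                  rw [← div_eq_mul_inv, div_le_iff₀ (by positivity)]
                  have h6 : (K : ℝ) ^ (κ + 2) ≤ (2 : ℝ) ^ (K * (N / n + 2)) := by
                    calc (K : ℝ) ^ (κ + 2) ≤ (2 ^ K : ℝ) ^ (κ + 2) := by
                          apply pow_le_pow_left₀ (by positivity)
                          exact_mod_cast (Nat.lt_two_pow_self (n := K)).le
                      _ = (2 : ℝ) ^ (K * (κ + 2)) := by rw [← pow_mul]
                      _ ≤ _ := pow_le_pow_right₀ (by norm_num) (Nat.mul_le_mul_left _ (by omega))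
                  have h7 : (2 : ℝ) ^ (K * (N / n + 2)) * 4 ≤ (b : ℝ) ^ G := by
                    calc (2 : ℝ) ^ (K * (N / n + 2)) * 4 = 2 ^ G := by
                          rw [hG, pow_add]
                          norm_num
                      _ ≤ _ := pow_le_pow_left₀ (by norm_num) hbR _
                  linarith
          calc (b : ℝ) ^ e * |(b : ℝ) ^ (n * κ) * S - U f b n κ| / (p : ℝ) ^ r ≤
              (1 / 2) / (p : ℝ) ^ r := div_le_div_of_nonneg_right h5 hprpos.le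
            _ = _ := by field_simp) hy0 hy1
        have hcast : ((P : ℕ) : ℝ) = (p : ℝ) ^ (r - a) := by rw [hP]; push_cast; rfl
        rw [hcast]
        exact hrun)
      exact hlocal) s L le_rfl
    refine hmain.trans ?_
    have hPR : ((P : ℕ) : ℝ) = (p : ℝ) ^ (r - a) := by rw [hP]; push_cast; rfl
    have hPle : ((P : ℕ) : ℝ) ≤ (p : ℝ) ^ r := by
      rw [hPR]
      exact pow_le_pow_right₀ hpR1 (by omega)
    have hPR0 : (0 : ℝ) < P := by exact_mod_cast hPpos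
    have htR : (1 : ℝ) ≤ t := by exact_mod_cast ht1
    have hTR : ((T : ℕ) : ℝ) = t * P := by rw [hT]; push_cast; ring
    have hterm1 : 3 * (t : ℝ) * (L / T) = (p : ℝ) ^ a * 3 * (L / (p : ℝ) ^ r) := by
      rw [hTR, hPR]
      have h8 : (p : ℝ) ^ r = (p : ℝ) ^ a * (p : ℝ) ^ (r - a) := by
        rw [← pow_add]
        congr 1
        omega
      rw [h8]
      field_simp
    have hdiv : ((N / n : ℕ) : ℝ) ≤ (s + L) / n := by
      have h9 := @Nat.cast_div_le ℝ _ _ _ N n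
      refine h9.trans (le_of_eq ?_)
      rw [hN]
      push_cast
      ring
    have hGR : ((G : ℕ) : ℝ) ≤ K * ((s + L) / n) + (2 * K + 2) := by
      rw [hG]
      push_cast
      have := mul_le_mul_of_nonneg_left hdiv (by positivity : (0 : ℝ) ≤ K)
      linarith
    have hTG : (T : ℝ) + G ≤ (t + 2 * K + 2 + K) * ((p : ℝ) ^ r + (s + L) / n) := by
      have h10 : (T : ℝ) ≤ t * (p : ℝ) ^ r := by
        rw [hTR]
        exact mul_le_mul_of_nonneg_left hPle (by positivity)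
      have h11 : (0 : ℝ) ≤ (s + L) / n := by positivity
      have h12 : (2 * (K : ℝ) + 2) ≤ (2 * K + 2) * (p : ℝ) ^ r := by nlinarith
      have h13 : (0 : ℝ) ≤ (t + 2 * K + 2) * ((s + L) / n) := by positivity
      have h14 : (0 : ℝ) ≤ K * (p : ℝ) ^ r := by positivity
      nlinarith
    have hLn : (L : ℝ) / n + 2 ≤ 2 * (L / n + 1) := by
      have : (0 : ℝ) ≤ L / n := by positivity
      linarith
    have hterm2 : ((T : ℝ) + G) * (L / n + 2) ≤
        2 * (t + 2 * K + 2 + K) * (((p : ℝ) ^ r + (s + L) / n) * (L / n + 1)) := by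
      calc ((T : ℝ) + G) * (L / n + 2) ≤
          ((t + 2 * K + 2 + K) * ((p : ℝ) ^ r + (s + L) / n)) * (2 * (L / n + 1)) :=
            mul_le_mul hTG hLn (by positivity) (by positivity)
        _ = _ := by ring
    rw [hterm1]
    have hD : (0 : ℝ) ≤ 2 * (t + 2 * K + 2 + K) := by positivity
    calc (p : ℝ) ^ a * 3 * (L / (p : ℝ) ^ r) + ((T : ℝ) + G) * (L / n + 2) ≤
        (p : ℝ) ^ a * 3 * (L / (p : ℝ) ^ r) + 2 * (t + 2 * K + 2 + K) *
          (((p : ℝ) ^ r + (s + L) / n) * (L / n + 1)) := by linarith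
      _ ≤ C * (L / (p : ℝ) ^ r) + C * (((p : ℝ) ^ r + (s + L) / n) * (L / n + 1)) := by
          apply add_le_add
          · apply mul_le_mul_of_nonneg_right _ (by positivity)
            rw [hC]
            linarith
          · apply mul_le_mul_of_nonneg_right _ hX
            rw [hC]
            have : (0 : ℝ) ≤ (p : ℝ) ^ a * 3 := by positivity
            linarith
      _ = _ := by ring

end Pool.Agent.H609.XP
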