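import Pool.Agent.H609.XP.Main

/-!
# The numbers `(1 + d ^ 2 p / b ^ n) ^ (1 / d) / p ^ r`
-/

set_option autoImplicit false

namespace Pool.Agent.H609.XP

open Finset PowerSeries
open Pool.Agent.H609.GF (Sm ev evA rel SG_of_alg irr int_rel ev_poly)

/-- dividing by a rational number does not change the degree -/
lemma degree_div {S : ℝ} (hS : IsIntegral ℚ S) (q : ℚ) (hq : q ≠ 0) :
    (minpoly ℚ S).natDegree ≤ (minpoly ℚ (S / q)).natDegree := by
  have hint : IsIntegral ℚ (S / (q : ℝ)) := by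
    rw [div_eq_mul_inv]
    have h1 : ((q : ℝ))⁻¹ = algebraMap ℚ ℝ (q⁻¹) := by simp
    rw [h1]
    exact hS.mul isIntegral_algebraMap
  set g := (minpoly ℚ (S / (q : ℝ))).comp (Polynomial.C q⁻¹ * Polynomial.X) with hg
  have hlin : (Polynomial.C q⁻¹ * Polynomial.X : Polynomial ℚ).natDegree = 1 := by
    rw [Polynomial.natDegree_C_mul (inv_ne_zero hq), Polynomial.natDegree_X]
  have hgdeg : g.natDegree = (minpoly ℚ (S / (q : ℝ))).natDegree := by
    rw [hg, Polynomial.natDegree_comp, hlin, mul_one]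
  have hpos : 0 < (minpoly ℚ (S / (q : ℝ))).natDegree := minpoly.natDegree_pos hint
  have hg0 : g ≠ 0 := by
    intro h0
    rw [h0, Polynomial.natDegree_zero] at hgdeg
    omega
  have hroot : Polynomial.aeval S g = 0 := by
    rw [hg, Polynomial.aeval_comp]
    have h1 : Polynomial.aeval S (Polynomial.C q⁻¹ * Polynomial.X : Polynomial ℚ) = S / q := by
      rw [map_mul, Polynomial.aeval_C, Polynomial.aeval_X, eq_ratCast, Rat.cast_inv]
      ring
    rw [h1]
    exact minpoly.aeval ℚ _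
  rw [← hgdeg]
  exact Polynomial.natDegree_le_of_dvd (minpoly.dvd ℚ S hroot) hg0

theorem roots {b : ℕ} (hb : 2 ≤ b) {d : ℕ} (hd : 2 ≤ d) {p : ℕ} (hp : p.Prime) (hp2 : Odd p)
    (hpb : ¬ p ∣ b) : ∃ C : ℝ, 0 < C ∧ ∃ n₀ : ℕ, ∀ n : ℕ, n₀ ≤ n → ∀ r : ℕ,
      (minpoly ℚ ((1 + (d : ℝ) ^ 2 * p / (b : ℝ) ^ n) ^ (1 / (d : ℝ)) / (p : ℝ) ^ r)).natDegree = d ∧
      Controlled b p n r C ((1 + (d : ℝ) ^ 2 * p / (b : ℝ) ^ n) ^ (1 / (d : ℝ)) / (p : ℝ) ^ r) := by
  have hp0 : (p : ℚ) ≠ 0 := by exact_mod_cast hp.ne_zero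
  have hpR : (0 : ℝ) < p := by exact_mod_cast hp.pos
  have hb0 : (0 : ℝ) < b := by exact_mod_cast (by omega : 0 < b)
  have hb1 : (1 : ℝ) ≤ b := by exact_mod_cast (by omega : 1 ≤ b)
  have hbR : (1 : ℝ) < b := by exact_mod_cast (by omega : 1 < b)
  have hdR : (0 : ℝ) < d := by exact_mod_cast (by omega : 0 < d)
  obtain ⟨F, hF1, hF2, hF3⟩ := exists_root (d := d) (by omega) (p : ℤ)
  set c : ℚ := (d : ℚ) ^ 2 * p with hc
  have hc0 : c ≠ 0 := by
    rw [hc]
    have : (d : ℚ) ≠ 0 := by exact_mod_cast (by omega : d ≠ 0)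
    positivity
  set θ : ℚ⟦X⟧ := F.map (Int.castRingHom ℚ) with hθ
  have hθd : θ ^ d = 1 + C c * X := by
    rw [hθ, ← map_pow, hF1, map_add, map_one, map_mul, PowerSeries.map_C, PowerSeries.map_X]
    congr 3
    rw [hc]
    simp
  obtain ⟨hmon, hirr⟩ := poly_facts (d := d) (by omega) hc0
  set q : Polynomial (Polynomial ℚ) := Polynomial.X ^ d -
    Polynomial.C (1 + Polynomial.C c * Polynomial.X) with hq
  have hqdeg : q.natDegree = d := Polynomial.natDegree_X_pow_sub_C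
  have hroot : Polynomial.aeval θ q = 0 := by
    rw [hq, map_sub, map_pow, Polynomial.aeval_X, Polynomial.aeval_C, hθd,
      Pool.Agent.H609.JT.algebraMap_poly]
    simp
  have hint : IsIntegral (Polynomial ℚ) θ := ⟨q, hmon, hroot⟩
  have hmin : (minpoly (Polynomial ℚ) θ).natDegree = d := by
    obtain ⟨g, hg⟩ := minpoly.isIntegrallyClosed_dvd hint hroot
    rcases hirr.isUnit_or_isUnit hg with h1 | h1
    · exact absurd h1 (minpoly.not_isUnit _ _)
    · have hg0 : g ≠ 0 := h1.ne_zero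
      have h2 := congrArg Polynomial.natDegree hg
      rw [Polynomial.natDegree_mul (minpoly.ne_zero hint) hg0, hqdeg,
        Polynomial.natDegree_eq_zero_of_isUnit h1, add_zero] at h2
      exact h2.symm
  have hFalg : IsAlgebraic (Polynomial ℚ) (F.map (Int.castRingHom ℚ)) := hint.isAlgebraic
  obtain ⟨K, hK1, hK⟩ := growth hFalg
  have h00 : ¬ (p : ℤ) ∣ coeff 0 F := by
    rw [coeff_zero_eq_constantCoeff_apply, hF2]
    intro h
    have h1 := Int.eq_one_of_dvd_one (by positivity) h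
    have h2 : p = 1 := by exact_mod_cast h1
    exact hp.one_lt.ne' h2
  obtain ⟨C, hC, hdig⟩ := digits hb hp hp2 hpb (fun k => coeff k F) hK1 hK h00 hF3
  obtain ⟨n1, hn1⟩ := Pool.Agent.H609.JT.deg_ge hint b hb
  obtain ⟨n2, hn2⟩ := pow_unbounded_of_one_lt (4 * (K : ℝ) ^ 2) hbR
  refine ⟨2 * C, by positivity, max (max n1 n2) (K + 1), fun n hn r => ?_⟩
  have hnn1 : n1 ≤ n := le_trans (le_trans (le_max_left _ _) (le_max_left _ _)) hn
  have hnn2 : n2 ≤ n := le_trans (le_trans (le_max_right _ _) (le_max_left _ _)) hn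
  have hnK : K + 1 ≤ n := le_trans (le_max_right _ _) hn
  have hsm := sm hK hb hnK
  have hB : (0 : ℝ) < (b : ℝ) ^ n := by positivity
  set x : ℝ := ((b : ℝ) ^ n)⁻¹ with hx
  have hx0 : 0 < x := by positivity
  have hev : ev x (F.map (Int.castRingHom ℚ)) = ∑' k, ((coeff k F : ℤ) : ℝ) * x ^ k := by
    unfold ev
    simp only [coeff_map']
  set S : ℝ := ev x θ with hS
  have hSd : S ^ d = 1 + (d : ℝ) ^ 2 * p / (b : ℝ) ^ n := by
    have h1 : ev x (θ ^ d) = ev x θ ^ d := by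
      have := map_pow (evA x) ⟨θ, hsm⟩ d
      exact this
    rw [hS, ← h1, hθd]
    have h2 := ev_poly x (1 + Polynomial.C c * Polynomial.X)
    have h3 : ((1 + Polynomial.C c * Polynomial.X : Polynomial ℚ) : ℚ⟦X⟧) =
        1 + PowerSeries.C c * PowerSeries.X := by simp
    rw [h3] at h2
    rw [h2]
    simp only [map_add, map_one, map_mul, Polynomial.aeval_C, Polynomial.aeval_X, eq_ratCast, hc,
      Rat.cast_pow, Rat.cast_natCast]
    rw [hx]
    ring
  have hSpos : 0 < S := by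
    have hKx : (K : ℝ) * x ≤ 1 / 2 := by
      rw [hx, ← div_eq_mul_inv, div_le_iff₀ hB]
      have := two_mul_le_pow hb hnK
      linarith
    obtain ⟨-, h1⟩ := tail (fun k => ((coeff k F : ℤ) : ℝ)) (by positivity : (0 : ℝ) ≤ K) hx0.le hKx
      hK 1
    rw [← hev, sum_range_one, pow_zero, mul_one, coeff_zero_eq_constantCoeff_apply, hF2,
      Int.cast_one, pow_one] at h1
    have h2 : 2 * (K : ℝ) ^ (1 + 1) * x ≤ 1 / 2 := by
      rw [hx, ← div_eq_mul_inv, div_le_iff₀ hB]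
      have h3 : (b : ℝ) ^ n2 ≤ (b : ℝ) ^ n := pow_le_pow_right₀ hb1 hnn2
      norm_num
      linarith
    have h3 := (abs_le.1 (h1.trans h2)).1
    linarith
  have hSeq : (1 + (d : ℝ) ^ 2 * p / (b : ℝ) ^ n) ^ (1 / (d : ℝ)) = S := by
    rw [← hSd, ← Real.rpow_natCast, ← Real.rpow_mul hSpos.le, mul_one_div, div_self hdR.ne',
      Real.rpow_one]
  rw [hSeq]
  refine ⟨le_antisymm ?_ ?_, ?_⟩
  · -- the upper bound for the degree
    set g : Polynomial ℚ := Polynomial.X ^ d -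
      Polynomial.C ((1 + (d : ℚ) ^ 2 * p / (b : ℚ) ^ n) / ((p : ℚ) ^ r) ^ d) with hg
    have h1 : Polynomial.aeval (S / (p : ℝ) ^ r) g = 0 := by
      rw [hg, map_sub, map_pow, Polynomial.aeval_X, Polynomial.aeval_C, div_pow, hSd, eq_ratCast]
      push_cast
      ring
    have h2 := Polynomial.natDegree_le_of_dvd (minpoly.dvd ℚ _ h1)
      (Polynomial.monic_X_pow_sub_C _ (by omega)).ne_zero
    rwa [hg, Polynomial.natDegree_X_pow_sub_C] at h2
  · have hSint : IsIntegral ℚ S := by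
      refine ⟨Polynomial.X ^ d - Polynomial.C (1 + (d : ℚ) ^ 2 * p / (b : ℚ) ^ n),
        Polynomial.monic_X_pow_sub_C _ (by omega), ?_⟩
      rw [Polynomial.eval₂_sub, Polynomial.eval₂_X_pow, Polynomial.eval₂_C, hSd, eq_ratCast]
      push_cast
      ring
    have h1 := hn1 n hnn1 hsm
    rw [hmin] at h1
    have h2 := degree_div hSint ((p : ℚ) ^ r) (pow_ne_zero _ hp0)
    push_cast at h2
    exact h1.trans h2
  · have h1 : S = ∑' k, ((coeff k F : ℤ) : ℝ) * x ^ k := hev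
    rw [h1]
    exact controlled_of_Er (fun y hy0 hy1 s L => hdig n hnK r y hy0 hy1 s L)

end Pool.Agent.H609.XP
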