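import Mathlib

/-!
# The power series `(1 + d ^ 2 p X) ^ (1 / d)` has integral coefficients, constant modulo `p`
-/

set_option autoImplicit false

namespace Pool.Agent.H609.XP

open Finset PowerSeries

section fix

variable {R : Type*} [CommRing R]

/-- the iteration -/
noncomputable def it (Q : Polynomial R⟦X⟧) (a : R⟦X⟧) : ℕ → R⟦X⟧
  | 0 => 0
  | N + 1 => a + X * Q.eval (it Q a N)

lemma it_step (Q : Polynomial R⟦X⟧) (a : R⟦X⟧) (N : ℕ) :
    (X : R⟦X⟧) ^ N ∣ it Q a (N + 1) - it Q a N := by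
  induction N with
  | zero => simp
  | succ N ih =>
    have h1 : it Q a (N + 1 + 1) - it Q a (N + 1) =
        X * (Q.eval (it Q a (N + 1)) - Q.eval (it Q a N)) := by
      change (a + X * Q.eval (it Q a (N + 1))) - (a + X * Q.eval (it Q a N)) = _
      ring
    rw [h1, pow_succ']
    exact mul_dvd_mul_left _ (ih.trans (Polynomial.sub_dvd_eval_sub _ _ Q))

lemma it_le (Q : Polynomial R⟦X⟧) (a : R⟦X⟧) (N M : ℕ) (h : N ≤ M) :
    (X : R⟦X⟧) ^ N ∣ it Q a M - it Q a N := by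
  induction M, h using Nat.le_induction with
  | base => simp
  | succ M hM ih =>
    have h1 : it Q a (M + 1) - it Q a N = (it Q a (M + 1) - it Q a M) + (it Q a M - it Q a N) := by
      ring
    rw [h1]
    exact dvd_add ((pow_dvd_pow _ hM).trans (it_step Q a M)) ih

/-- **The equation `W = a + X Q(W)` has a solution.** -/
theorem exists_fix (Q : Polynomial R⟦X⟧) (a : R⟦X⟧) : ∃ W : R⟦X⟧, W = a + X * Q.eval W := by
  let W : R⟦X⟧ := PowerSeries.mk fun k => coeff k (it Q a (k + 1))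
  have hW : ∀ N, (X : R⟦X⟧) ^ N ∣ W - it Q a N := by
    intro N
    rw [PowerSeries.X_pow_dvd_iff]
    intro k hk
    rw [map_sub, PowerSeries.coeff_mk, sub_eq_zero]
    have h1 := it_le Q a (k + 1) N (by omega)
    rw [PowerSeries.X_pow_dvd_iff] at h1
    have h2 := h1 k (by omega)
    rw [map_sub, sub_eq_zero] at h2
    exact h2.symm
  refine ⟨W, ?_⟩
  ext k
  have h1 := hW (k + 1)
  have h2 : (X : R⟦X⟧) ^ (k + 1) ∣ (a + X * Q.eval W) - it Q a (k + 1) := by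
    have h3 : (a + X * Q.eval W) - it Q a (k + 1) = X * (Q.eval W - Q.eval (it Q a k)) := by
      change (a + X * Q.eval W) - (a + X * Q.eval (it Q a k)) = _
      ring
    rw [h3, pow_succ']
    exact mul_dvd_mul_left _ ((hW k).trans (Polynomial.sub_dvd_eval_sub _ _ Q))
  have h3 : (X : R⟦X⟧) ^ (k + 1) ∣ W - (a + X * Q.eval W) := by
    have h4 : W - (a + X * Q.eval W) = (W - it Q a (k + 1)) -
        ((a + X * Q.eval W) - it Q a (k + 1)) := by ring
    rw [h4]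
    exact dvd_sub h1 h2
  rw [PowerSeries.X_pow_dvd_iff] at h3
  have h5 := h3 k (by omega)
  rw [map_sub, sub_eq_zero] at h5
  exact h5

end fix

/-- **The root.** -/
theorem exists_root {d : ℕ} (hd : 1 ≤ d) (p : ℤ) : ∃ F : ℤ⟦X⟧, F ^ d = 1 + C ((d : ℤ) ^ 2 * p) * X ∧
    constantCoeff F = 1 ∧ ∀ k, 1 ≤ k → p ∣ coeff k F := by
  -- `W = 1 - ∑_{m ≥ 2} c m X ^ (m - 1) W ^ m`
  let Q : Polynomial ℤ⟦X⟧ := ∑ m ∈ range (d - 1),
    Polynomial.C (-(C (((d.choose (m + 2) : ℕ) : ℤ) * (d : ℤ) ^ m * p ^ (m + 1))) * X ^ m) *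
      Polynomial.X ^ (m + 2)
  obtain ⟨W, hW⟩ := exists_fix Q 1
  have hQ : Q.eval W = ∑ m ∈ range (d - 1),
      (-(C (((d.choose (m + 2) : ℕ) : ℤ) * (d : ℤ) ^ m * p ^ (m + 1))) * X ^ m) * W ^ (m + 2) := by
    simp only [Q, Polynomial.eval_finsetSum, Polynomial.eval_mul, Polynomial.eval_C,
      Polynomial.eval_pow, Polynomial.eval_X]
  set Y : ℤ⟦X⟧ := X * W with hY
  refine ⟨1 + C ((d : ℤ) * p) * Y, ?_, ?_, ?_⟩
  · have h1 : Y + ∑ m ∈ range (d - 1),
        C (((d.choose (m + 2) : ℕ) : ℤ) * (d : ℤ) ^ m * p ^ (m + 1)) * Y ^ (m + 2) = X := by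
      have h2 : ∑ m ∈ range (d - 1),
          C (((d.choose (m + 2) : ℕ) : ℤ) * (d : ℤ) ^ m * p ^ (m + 1)) * Y ^ (m + 2) =
          -(X * (X * Q.eval W)) := by
        rw [hQ, mul_sum, mul_sum, ← sum_neg_distrib]
        refine sum_congr rfl fun m _ => ?_
        rw [hY, mul_pow]
        ring
      rw [h2]
      have h3 : Y = X * (1 + X * Q.eval W) := by rw [hY]; conv_lhs => rw [hW]
      rw [h3]
      ring
    have h4 : (1 + C ((d : ℤ) * p) * Y) ^ d = 1 + C ((d : ℤ) ^ 2 * p) *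
        (Y + ∑ m ∈ range (d - 1),
        C (((d.choose (m + 2) : ℕ) : ℤ) * (d : ℤ) ^ m * p ^ (m + 1)) * Y ^ (m + 2)) := by
      obtain ⟨e, rfl⟩ : ∃ e, d = e + 1 := ⟨d - 1, by omega⟩
      rw [add_comm (1 : ℤ⟦X⟧) (C _ * Y), add_pow, Nat.add_sub_cancel]
      simp only [one_pow, mul_one]
      rw [sum_range_succ', sum_range_succ']
      simp only [mul_pow, ← map_pow, pow_zero, one_mul, zero_add, pow_one,
        Nat.choose_zero_right, Nat.choose_one_right, Nat.cast_one]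
      rw [mul_add, mul_sum]
      have h5 : ∀ m ∈ range e, C (((e + 1 : ℕ) : ℤ) ^ (m + 1 + 1) * p ^ (m + 1 + 1)) *
          Y ^ (m + 1 + 1) *
          (((e + 1).choose (m + 1 + 1) : ℕ) : ℤ⟦X⟧) = C ((((e + 1 : ℕ) : ℤ)) ^ 2 * p) *
          (C (((((e + 1).choose (m + 2) : ℕ) : ℤ)) * (((e + 1 : ℕ) : ℤ)) ^ m * p ^ (m + 1)) *
            Y ^ (m + 2)) := by
        intro m _
        have h6 : (((e + 1).choose (m + 1 + 1) : ℕ) : ℤ⟦X⟧) =
            C (((e + 1).choose (m + 2) : ℕ) : ℤ) := by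
          rw [map_natCast]
        rw [h6]
        have h7 : C ((((e + 1 : ℕ) : ℤ)) ^ 2 * p) *
          (C (((((e + 1).choose (m + 2) : ℕ) : ℤ)) * (((e + 1 : ℕ) : ℤ)) ^ m * p ^ (m + 1)) *
            Y ^ (m + 2)) = C (((((e + 1 : ℕ) : ℤ)) ^ 2 * p) *
            (((((e + 1).choose (m + 2) : ℕ) : ℤ)) * (((e + 1 : ℕ) : ℤ)) ^ m * p ^ (m + 1))) *
            Y ^ (m + 2) := by
          rw [map_mul C ((((e + 1 : ℕ) : ℤ)) ^ 2 * p)]
          ring
        rw [h7, mul_right_comm, ← map_mul]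
        congr 2
        ring
      rw [sum_congr rfl h5]
      have h8 : (((e + 1 : ℕ) : ℕ) : ℤ⟦X⟧) = C ((e + 1 : ℕ) : ℤ) := by rw [map_natCast]
      rw [h8]
      have h9 : C ((((e + 1 : ℕ) : ℤ)) * p) * Y * C ((e + 1 : ℕ) : ℤ) =
          C ((((e + 1 : ℕ) : ℤ)) ^ 2 * p) * Y := by
        rw [mul_right_comm, ← map_mul]
        congr 2
        ring
      rw [h9]
      ring
    rw [h4, h1]
  · simp [hY]
  · intro k hk
    rw [map_add, PowerSeries.coeff_one, if_neg (by omega), zero_add, PowerSeries.coeff_C_mul]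
    exact ⟨d * coeff k Y, by ring⟩

end Pool.Agent.H609.XP
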