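import Pool.Agent.H609.XP.Series
import Pool.Agent.H609.XP.Root
import Pool.Agent.H609.JT.Deg
import Pool.Agent.H609.GF.Values

/-!
# Explicit algebraic irrational numbers with controlled digits
-/

set_option autoImplicit false

namespace Pool.Agent.H609.XP

open Finset PowerSeries
open Pool.Agent.H609.GF (Sm ev evA rel SG_of_alg irr int_rel)

/-- the discrepancy in all windows -/
def Controlled (b p n r : ℕ) (C α : ℝ) : Prop :=
  ∀ (s L : ℕ) (u v : ℝ), 0 ≤ u → u ≤ v → v ≤ 1 →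
    |((({j ∈ range L | u ≤ Int.fract ((b : ℝ) ^ (s + j) * α) ∧
      Int.fract ((b : ℝ) ^ (s + j) * α) < v} : Finset ℕ).card : ℕ) : ℝ) - (v - u) * L| ≤
      C * (L / (p : ℝ) ^ r + ((p : ℝ) ^ r + (s + L) / n) * (L / n + 1))

lemma controlled_of_Er {b p n r : ℕ} {C α : ℝ}
    (h : ∀ y : ℝ, 0 ≤ y → y ≤ 1 → ∀ s L : ℕ, |Er (fun j => (b : ℝ) ^ j * α) y s L| ≤
      C * (L / (p : ℝ) ^ r + ((p : ℝ) ^ r + (s + L) / n) * (L / n + 1))) :
    Controlled b p n r (2 * C) α := by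
  classical
  intro s L u v hu huv hv
  have h1 := h u hu (by linarith) s L
  have h2 := h v (by linarith) hv s L
  have h3 : ({j ∈ range L | u ≤ Int.fract ((b : ℝ) ^ (s + j) * α) ∧
      Int.fract ((b : ℝ) ^ (s + j) * α) < v} : Finset ℕ).card +
      ({j ∈ range L | Int.fract ((b : ℝ) ^ (s + j) * α) < u} : Finset ℕ).card =
      ({j ∈ range L | Int.fract ((b : ℝ) ^ (s + j) * α) < v} : Finset ℕ).card := by
    rw [← card_union_of_disjoint]
    · congr 1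
      ext j
      simp only [mem_union, mem_filter, mem_range]
      constructor
      · rintro (⟨h4, h5, h6⟩ | ⟨h4, h5⟩)
        · exact ⟨h4, h6⟩
        · exact ⟨h4, lt_of_lt_of_le h5 huv⟩
      · rintro ⟨h4, h5⟩
        rcases lt_or_ge (Int.fract ((b : ℝ) ^ (s + j) * α)) u with h6 | h6
        · exact Or.inr ⟨h4, h6⟩
        · exact Or.inl ⟨h4, h6, h5⟩
    · rw [disjoint_left]
      intro j hj hj'
      rw [mem_filter] at hj hj'
      exact absurd hj'.2 (not_lt.2 hj.2.1)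
  have h4 : ((({j ∈ range L | u ≤ Int.fract ((b : ℝ) ^ (s + j) * α) ∧
      Int.fract ((b : ℝ) ^ (s + j) * α) < v} : Finset ℕ).card : ℕ) : ℝ) - (v - u) * L =
      Er (fun j => (b : ℝ) ^ j * α) v s L - Er (fun j => (b : ℝ) ^ j * α) u s L := by
    unfold Er
    rw [← h3]
    push_cast
    ring
  rw [h4]
  have h5 := abs_sub (Er (fun j => (b : ℝ) ^ j * α) v s L) (Er (fun j => (b : ℝ) ^ j * α) u s L)
  linarith

lemma coeff_map' (F : ℤ⟦X⟧) (k : ℕ) : ((coeff k (F.map (Int.castRingHom ℚ)) : ℚ) : ℝ) =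
    ((coeff k F : ℤ) : ℝ) := by
  rw [PowerSeries.coeff_map]
  simp

lemma growth {F : ℤ⟦X⟧} (hF : IsAlgebraic (Polynomial ℚ) (F.map (Int.castRingHom ℚ))) :
    ∃ K : ℕ, 1 ≤ K ∧ ∀ k, |((coeff k F : ℤ) : ℝ)| ≤ (K : ℝ) ^ (k + 1) := by
  obtain ⟨C, hC, h⟩ := SG_of_alg hF
  refine ⟨C, hC, fun k => ?_⟩
  rw [← coeff_map']
  have := (h k).1
  exact_mod_cast this

lemma two_mul_le_pow {b : ℕ} (hb : 2 ≤ b) {K n : ℕ} (hn : K + 1 ≤ n) :
    2 * (K : ℝ) ≤ (b : ℝ) ^ n := by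
  have hbR : (2 : ℝ) ≤ b := by exact_mod_cast hb
  calc 2 * (K : ℝ) ≤ 2 * 2 ^ K := by
        have : (K : ℝ) < 2 ^ K := by exact_mod_cast Nat.lt_two_pow_self
        linarith
    _ = 2 ^ (K + 1) := by ring
    _ ≤ (b : ℝ) ^ (K + 1) := pow_le_pow_left₀ (by norm_num) hbR _
    _ ≤ _ := pow_le_pow_right₀ (by linarith) hn

lemma sm {F : ℤ⟦X⟧} {K : ℕ} (hK : ∀ k, |((coeff k F : ℤ) : ℝ)| ≤ (K : ℝ) ^ (k + 1)) {b : ℕ}
    (hb : 2 ≤ b) {n : ℕ} (hn : K + 1 ≤ n) :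
    Sm (((b : ℝ) ^ n)⁻¹) (F.map (Int.castRingHom ℚ)) := by
  have hb0 : (0 : ℝ) < b := by exact_mod_cast (by omega : 0 < b)
  have hB : (0 : ℝ) < (b : ℝ) ^ n := by positivity
  have h1 := two_mul_le_pow hb hn
  have hKx : (K : ℝ) * ((b : ℝ) ^ n)⁻¹ ≤ 1 / 2 := by
    rw [← div_eq_mul_inv, div_le_iff₀ hB]
    linarith
  have hx0 : 0 ≤ ((b : ℝ) ^ n)⁻¹ := by positivity
  obtain ⟨h2, -⟩ := tail (fun k => |((coeff k F : ℤ) : ℝ)|) (by positivity : (0 : ℝ) ≤ K) hx0 hKx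
    (fun k => by rw [abs_abs]; exact hK k) 0
  unfold Sm
  refine h2.congr fun k => ?_
  rw [coeff_map', norm_mul, norm_pow, Real.norm_eq_abs, Real.norm_eq_abs, abs_of_nonneg hx0]

/-- **The general theorem.** -/
theorem general (F : ℤ⟦X⟧) (hF : IsAlgebraic (Polynomial ℚ) (F.map (Int.castRingHom ℚ)))
    (hr : ∀ P Q : Polynomial ℚ, (Q : ℚ⟦X⟧) * F.map (Int.castRingHom ℚ) = (P : ℚ⟦X⟧) → Q = 0)
    {b : ℕ} (hb : 2 ≤ b) {p : ℕ} (hp : p.Prime) (hp2 : Odd p) (hpb : ¬ p ∣ b)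
    (h0 : ¬ (p : ℤ) ∣ coeff 0 F) (hk : ∀ k, 1 ≤ k → (p : ℤ) ∣ coeff k F) :
    ∃ A : ℕ, ∃ C : ℝ, 0 < C ∧ ∃ n₀ : ℕ, ∀ n : ℕ, n₀ ≤ n → ∃ S : ℝ,
      HasSum (fun k : ℕ => ((coeff k F : ℤ) : ℝ) * (((b : ℝ) ^ n)⁻¹) ^ k) S ∧ Irrational S ∧
      (∃ R : Polynomial ℤ, R ≠ 0 ∧ R.natDegree ≤ A ∧ (∀ k, |R.coeff k| ≤ (b : ℤ) ^ (A * n)) ∧
        Polynomial.aeval S R = 0) ∧
      ∀ r : ℕ, Controlled b p n r C (S / (p : ℝ) ^ r) := by
  obtain ⟨K, hK1, hK⟩ := growth hF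
  obtain ⟨C, hC, hdig⟩ := digits hb hp hp2 hpb (fun k => coeff k F) hK1 hK h0 hk
  obtain ⟨A, hA⟩ := int_rel hF
  obtain ⟨n1, hn1⟩ := hA b hb
  obtain ⟨n2, hn2⟩ := irr hF hr b hb
  refine ⟨A, 2 * C, by positivity, max (max n1 n2) (K + 1), fun n hn => ?_⟩
  have hnn1 : n1 ≤ n := le_trans (le_trans (le_max_left _ _) (le_max_left _ _)) hn
  have hnn2 : n2 ≤ n := le_trans (le_trans (le_max_right _ _) (le_max_left _ _)) hn
  have hnK : K + 1 ≤ n := le_trans (le_max_right _ _) hn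
  have hsm := sm hK hb hnK
  have hev : ev (((b : ℝ) ^ n)⁻¹) (F.map (Int.castRingHom ℚ)) =
      ∑' k, ((coeff k F : ℤ) : ℝ) * (((b : ℝ) ^ n)⁻¹) ^ k := by
    unfold ev
    simp only [coeff_map']
  refine ⟨ev (((b : ℝ) ^ n)⁻¹) (F.map (Int.castRingHom ℚ)), ?_, hn2 n hnn2 hsm,
    hn1 n hnn1 hsm, fun r => ?_⟩
  · have h1 : Summable fun k : ℕ => ((coeff k F : ℤ) : ℝ) * (((b : ℝ) ^ n)⁻¹) ^ k := by
      have h2 := hsm.of_norm
      refine h2.congr fun k => ?_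
      rw [coeff_map']
    rw [hev]
    exact h1.hasSum
  · rw [hev]
    exact controlled_of_Er (fun y hy0 hy1 s L => hdig n hnK r y hy0 hy1 s L)

/-- the polynomial `Y ^ d - (1 + c X)` -/
lemma poly_facts {d : ℕ} (hd : 1 ≤ d) {c : ℚ} (hc : c ≠ 0) :
    (Polynomial.X ^ d - Polynomial.C (1 + Polynomial.C c * Polynomial.X) :
      Polynomial (Polynomial ℚ)).Monic ∧
    Irreducible (Polynomial.X ^ d - Polynomial.C (1 + Polynomial.C c * Polynomial.X) :
      Polynomial (Polynomial ℚ)) := by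
  set π : Polynomial ℚ := 1 + Polynomial.C c * Polynomial.X with hπ
  have hmon : (Polynomial.X ^ d - Polynomial.C π : Polynomial (Polynomial ℚ)).Monic :=
    Polynomial.monic_X_pow_sub_C π (by omega)
  refine ⟨hmon, ?_⟩
  have hdeg : π.degree = 1 := by
    rw [hπ, add_comm]
    have h1 : (1 : Polynomial ℚ) = Polynomial.C 1 := by simp
    rw [h1]
    exact Polynomial.degree_linear hc
  have hirr : Irreducible π := Polynomial.irreducible_of_degree_eq_one hdeg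
  have hprime : Prime π := hirr.prime
  have hP : (Ideal.span {π}).IsPrime := (Ideal.span_singleton_prime hprime.ne_zero).2 hprime
  have hnat : (Polynomial.X ^ d - Polynomial.C π : Polynomial (Polynomial ℚ)).natDegree = d :=
    Polynomial.natDegree_X_pow_sub_C
  refine Polynomial.irreducible_of_eisenstein_criterion hP ?_ ?_ ?_ ?_ hmon.isPrimitive
  · rw [hmon.leadingCoeff, Ideal.mem_span_singleton]
    intro h
    exact hirr.not_isUnit (isUnit_of_dvd_one h)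
  · intro k hk
    rw [Polynomial.degree_eq_natDegree hmon.ne_zero, hnat] at hk
    have hk' : k < d := by exact_mod_cast hk
    rw [Polynomial.coeff_sub, Polynomial.coeff_X_pow, if_neg (by omega), zero_sub,
      Polynomial.coeff_C]
    split_ifs
    · exact neg_mem (Ideal.mem_span_singleton_self _)
    · simp
  · rw [Polynomial.degree_eq_natDegree hmon.ne_zero, hnat]
    exact_mod_cast hd
  · rw [Polynomial.coeff_sub, Polynomial.coeff_X_pow, if_neg (by omega), zero_sub,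
      Polynomial.coeff_C, if_pos rfl, Ideal.span_singleton_pow, Ideal.mem_span_singleton]
    intro h
    have h1 : π * π ∣ π * 1 := by
      rw [mul_one]
      have := (dvd_neg).1 h
      rwa [pow_two] at this
    exact hirr.not_isUnit (isUnit_of_dvd_one ((mul_dvd_mul_iff_left hprime.ne_zero).1 h1))

end Pool.Agent.H609.XP
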